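import Mathlib

/-!
# Derivation tests for the hypothesis of `UNilVanishesR` (abstract class of groups)
-/

set_option autoImplicit false

namespace Pool.Agent.MIX.Test

universe v w

section
variable {G : Type v} [Group G] {V : Type w} [MulAction G V] {Γ : SimpleGraph V}

/-- the automorphism given by an element of the group -/
def hom (hadj : ∀ (g : G) (x y : V), Γ.Adj x y → Γ.Adj (g • x) (g • y)) (g : G) : Γ →g Γ where
  toFun x := g • x
  map_rel' h := hadj g _ _ h

theorem hom_inj (hadj : ∀ (g : G) (x y : V), Γ.Adj x y → Γ.Adj (g • x) (g • y)) (g : G) :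
    Function.Injective (hom hadj g) := fun x y h => by
  have : g • x = g • y := h
  exact (MulAction.injective g) this

theorem path_eq (hΓ : Γ.IsTree) {u v : V} {W W' : Γ.Walk u v} (hW : W.IsPath) (hW' : W'.IsPath) :
    W = W' :=
  congrArg Subtype.val ((hΓ.isAcyclic.subsingleton_path u v).elim ⟨W, hW⟩ ⟨W', hW'⟩)

/-- an element which fixes the ends of a segment fixes all vertices of the segment -/
theorem fix_seg (hΓ : Γ.IsTree) (hadj : ∀ (g : G) (x y : V), Γ.Adj x y → Γ.Adj (g • x) (g • y))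
    {u v : V} (W : Γ.Walk u v) (hW : W.IsPath) {g : G} (hu : g • u = u) (hv : g • v = v) (n : ℕ) :
    g • W.getVert n = W.getVert n := by
  have hu' : (hom hadj g) u = u := hu
  have hv' : (hom hadj g) v = v := hv
  have h1 : ((W.map (hom hadj g)).copy hu' hv').IsPath := by
    rw [SimpleGraph.Walk.isPath_copy]
    exact SimpleGraph.Walk.IsPath.map (hom_inj hadj g) hW
  have h3 : W = (W.map (hom hadj g)).copy hu' hv' := path_eq hΓ hW h1
  have h4 : ((W.map (hom hadj g)).copy hu' hv').getVert n = g • W.getVert n := by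
    rw [SimpleGraph.Walk.getVert_copy, SimpleGraph.Walk.getVert_map]
    rfl
  rw [← h4, ← h3]

/-- an element which exchanges the ends of a segment reverses it -/
theorem rev_seg (hΓ : Γ.IsTree) (hadj : ∀ (g : G) (x y : V), Γ.Adj x y → Γ.Adj (g • x) (g • y))
    {u v : V} (W : Γ.Walk u v) (hW : W.IsPath) {g : G} (hu : g • u = v) (hv : g • v = u) (n : ℕ) :
    g • W.getVert n = W.getVert (W.length - n) := by
  have hu' : (hom hadj g) u = v := hu
  have hv' : (hom hadj g) v = u := hv
  have h1 : ((W.map (hom hadj g)).copy hu' hv').IsPath := by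
    rw [SimpleGraph.Walk.isPath_copy]
    exact SimpleGraph.Walk.IsPath.map (hom_inj hadj g) hW
  have h3 : W.reverse = (W.map (hom hadj g)).copy hu' hv' := path_eq hΓ hW.reverse h1
  have h4 : ((W.map (hom hadj g)).copy hu' hv').getVert n = g • W.getVert n := by
    rw [SimpleGraph.Walk.getVert_copy, SimpleGraph.Walk.getVert_map]
    rfl
  rw [← h4, ← h3, SimpleGraph.Walk.getVert_reverse]

end

/-- hypothesis of stage 3 for the class `P` -/
def HypT (P : ∀ (H : Type v) [Group H], Prop) (G : Type v) [Group G] {V : Type w} [MulAction G V]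
    (Γ : SimpleGraph V) (p q : V) (k : ℕ) : Prop :=
  ∀ (u v : V) (W : Γ.Walk u v), W.IsPath → W.length = k →
    (∀ e ∈ W.edges, ∃ g : G, e = s(g • p, g • q)) → ∀ H : Subgroup G,
      H ≤ MulAction.stabilizer G u ⊓ MulAction.stabilizer G v → H.FG → P H

/-- hypothesis of the theorem on reversed segments for the class `P` -/
def HypR (P : ∀ (H : Type v) [Group H], Prop) (G : Type v) [Group G] {V : Type w} [MulAction G V]
    (Γ : SimpleGraph V) (p q : V) (k : ℕ) : Prop :=
  ∀ (u v : V) (W : Γ.Walk u v), W.IsPath → W.length = 2 * k →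
    (∀ e ∈ W.edges, ∃ g : G, e = s(g • p, g • q)) → (∃ g : G, g • u = v ∧ g • v = u) →
      ∀ H : Subgroup G, H ≤ MulAction.stabilizer G u ⊓ MulAction.stabilizer G v → H.FG → P H

section
variable {P : ∀ (H : Type v) [Group H], Prop} {G : Type v} [Group G] {V : Type w} [MulAction G V]
  {Γ : SimpleGraph V}

/-- Test 1: the hypothesis of stage 3 for `k` implies the hypothesis on reversed segments for the
same `k` -/
theorem hypR_of_hypT (hΓ : Γ.IsTree)
    (hadj : ∀ (g : G) (x y : V), Γ.Adj x y → Γ.Adj (g • x) (g • y)) {p q : V} {k : ℕ}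
    (h : HypT P G Γ p q k) : HypR P G Γ p q k := by
  intro u v W hW hlen hedge _ H hH hfg
  refine h u (W.getVert k) (W.take k) (hW.take k) ?_ ?_ H ?_ hfg
  · rw [SimpleGraph.Walk.take_length]
    omega
  · intro e he
    rw [SimpleGraph.Walk.edges_take] at he
    exact hedge e (List.mem_of_mem_take he)
  · intro x hx
    obtain ⟨h1, h2⟩ := hH hx
    exact ⟨h1, fix_seg hΓ hadj W hW h1 h2 k⟩

/-- Test 1b: the same with the hypothesis of stage 3 for `2 k` in place of `k` -/
theorem hypR_of_hypT' {p q : V} {k : ℕ} (h : HypT P G Γ p q (2 * k)) : HypR P G Γ p q k :=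
  fun u v W hW hlen hedge _ H hH hfg => h u v W hW hlen hedge H hH hfg

omit [Group G] [MulAction G V] in
theorem mem_edges {u v : V} (W : Γ.Walk u v) {n : ℕ} (hn : n < W.length) :
    s(W.getVert n, W.getVert (n + 1)) ∈ W.edges := by
  induction W generalizing n with
  | nil => simp at hn
  | cons h W' ih =>
    cases n with
    | zero =>
      rw [SimpleGraph.Walk.getVert_zero, SimpleGraph.Walk.getVert_cons_succ,
        SimpleGraph.Walk.getVert_zero, SimpleGraph.Walk.edges_cons]
      exact List.mem_cons_self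
    | succ n =>
      rw [SimpleGraph.Walk.getVert_cons_succ, SimpleGraph.Walk.getVert_cons_succ,
        SimpleGraph.Walk.edges_cons]
      rw [SimpleGraph.Walk.length_cons] at hn
      exact List.mem_cons_of_mem _ (ih (by omega))

omit [Group G] [MulAction G V] in
theorem ends_ne {u v : V} (W : Γ.Walk u v) (hW : W.IsPath) (hlen : 0 < W.length) : u ≠ v := by
  rintro rfl
  rw [SimpleGraph.Walk.isPath_iff_eq_nil.1 hW] at hlen
  simp at hlen

/-- the middle edge of a reversed segment of two translates of `{p, q}` gives an element `h` of a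
vertex group, `h` not in the edge group and `h ^ 2` in the edge group -/
theorem seg_two (hΓ : Γ.IsTree)
    (hadj : ∀ (g : G) (x y : V), Γ.Adj x y → Γ.Adj (g • x) (g • y)) {p q : V}
    {u v : V} (W : Γ.Walk u v) (hW : W.IsPath) (hlen : W.length = 2 * 1)
    (hedge : ∀ e ∈ W.edges, ∃ g : G, e = s(g • p, g • q)) (hrev : ∃ g : G, g • u = v ∧ g • v = u) :
    ∃ a h : G, (h • p = p ∨ h • q = q) ∧ ¬ (h • p = p ∧ h • q = q) ∧ (h * h) • p = p ∧
      (h * h) • q = q ∧ ∀ x : G, x • u = u → x • v = v → (a⁻¹ * x * a) • p = p ∧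
        (a⁻¹ * x * a) • q = q ∧ (a⁻¹ * x * a) • h • p = h • p ∧
          (a⁻¹ * x * a) • h • q = h • q := by
  obtain ⟨g, hu, hv⟩ := hrev
  have hne : u ≠ v := ends_ne W hW (by omega)
  have hm : g • W.getVert 1 = W.getVert 1 := by
    have := rev_seg hΓ hadj W hW hu hv 1
    rwa [hlen] at this
  have hmem := mem_edges W (n := 0) (by omega)
  rw [SimpleGraph.Walk.getVert_zero, zero_add] at hmem
  obtain ⟨a, ha⟩ := hedge _ hmem
  have hinv : a⁻¹ * g * a * (a⁻¹ * g * a) = a⁻¹ * (g * g) * a := by group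
  have hgg : (g * g) • u = u := by rw [mul_smul, hu, hv]
  have hggm : (g * g) • W.getVert 1 = W.getVert 1 := by rw [mul_smul, hm, hm]
  have key : ∀ {x : G} {y z : V}, a • y = z → x • z = z → (a⁻¹ * x * a) • y = y := by
    intro x y z h1 h2
    rw [mul_smul, mul_smul, h1, h2, ← h1, inv_smul_smul]
  have key2 : ∀ {x : G} {y z : V}, a • y = z → x • g • z = g • z →
      (a⁻¹ * x * a) • (a⁻¹ * g * a) • y = (a⁻¹ * g * a) • y := by
    intro x y z h1 h2
    have h3 : (a⁻¹ * g * a) • y = a⁻¹ • g • z := by rw [mul_smul, mul_smul, h1]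
    rw [h3, mul_smul, mul_smul, smul_inv_smul, h2]
  refine ⟨a, a⁻¹ * g * a, ?_⟩
  rw [Sym2.eq_iff] at ha
  rcases ha with ⟨h1, h2⟩ | ⟨h1, h2⟩
  · refine ⟨Or.inr (key h2.symm hm), ?_, ?_, ?_, ?_⟩
    · rintro ⟨h3, -⟩
      have h4 : a • (a⁻¹ * g * a) • p = a • p := by rw [h3]
      rw [mul_smul, mul_smul, smul_inv_smul, ← h1, hu] at h4
      exact hne h4.symm
    · rw [hinv]
      exact key h1.symm hgg
    · rw [hinv]
      exact key h2.symm hggm
    · intro x hxu hxv
      have hxm : x • W.getVert 1 = W.getVert 1 := fix_seg hΓ hadj W hW hxu hxv 1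
      refine ⟨key h1.symm hxu, key h2.symm hxm, key2 h1.symm ?_, key2 h2.symm ?_⟩
      · rw [hu, hxv]
      · rw [hm, hxm]
  · refine ⟨Or.inl (key h2.symm hm), ?_, ?_, ?_, ?_⟩
    · rintro ⟨-, h3⟩
      have h4 : a • (a⁻¹ * g * a) • q = a • q := by rw [h3]
      rw [mul_smul, mul_smul, smul_inv_smul, ← h1, hu] at h4
      exact hne h4.symm
    · rw [hinv]
      exact key h2.symm hggm
    · rw [hinv]
      exact key h1.symm hgg
    · intro x hxu hxv
      have hxm : x • W.getVert 1 = W.getVert 1 := fix_seg hΓ hadj W hW hxu hxv 1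
      refine ⟨key h2.symm hxm, key h1.symm hxu, key2 h2.symm ?_, key2 h1.symm ?_⟩
      · rw [hm, hxm]
      · rw [hu, hxv]

/-- Test 2 (Cappell): if the edge group is square root closed in the two vertex groups, then the
hypothesis on reversed segments holds for `k = 1` and every class -/
theorem hypR_of_sqrt (hΓ : Γ.IsTree)
    (hadj : ∀ (g : G) (x y : V), Γ.Adj x y → Γ.Adj (g • x) (g • y)) {p q : V}
    (hsq : ∀ h : G, (h • p = p ∨ h • q = q) → (h * h) • p = p → (h * h) • q = q →
      h • p = p ∧ h • q = q) : HypR P G Γ p q 1 := by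
  intro u v W hW hlen hedge hrev
  exfalso
  obtain ⟨a, h, h1, h2, h3, h4, -⟩ := seg_two hΓ hadj W hW hlen hedge hrev
  exact h2 (hsq h h1 h3 h4)

/-- Test 3: for `k = 1` the hypothesis on reversed segments follows from the statement on the
intersections `F ∩ h F h⁻¹`, `h` in a vertex group, `h` not in `F`, `h ^ 2` in `F` -/
theorem hypR_one (hP : ∀ {H K : Type v} [Group H] [Group K], (H ≃* K) → P K → P H) (hΓ : Γ.IsTree)
    (hadj : ∀ (g : G) (x y : V), Γ.Adj x y → Γ.Adj (g • x) (g • y)) {p q : V}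
    (hsq : ∀ h : G, (h • p = p ∨ h • q = q) → ¬ (h • p = p ∧ h • q = q) → (h * h) • p = p →
      (h * h) • q = q → ∀ H : Subgroup G,
        H ≤ (MulAction.stabilizer G p ⊓ MulAction.stabilizer G q) ⊓
          (MulAction.stabilizer G (h • p) ⊓ MulAction.stabilizer G (h • q)) → H.FG → P H) :
    HypR P G Γ p q 1 := by
  intro u v W hW hlen hedge hrev H hH hfg
  obtain ⟨a, h, h1, h2, h3, h4, h5⟩ := seg_two hΓ hadj W hW hlen hedge hrev
  have h6 : H.map (MulAut.conj a⁻¹).toMonoidHom ≤
      (MulAction.stabilizer G p ⊓ MulAction.stabilizer G q) ⊓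
        (MulAction.stabilizer G (h • p) ⊓ MulAction.stabilizer G (h • q)) := by
    rintro _ ⟨x, hx, rfl⟩
    obtain ⟨hx1, hx2⟩ := hH hx
    obtain ⟨h6, h7, h8, h9⟩ := h5 x hx1 hx2
    have h10 : (MulAut.conj a⁻¹).toMonoidHom x = a⁻¹ * x * a := by
      simp
    rw [h10]
    exact ⟨⟨h6, h7⟩, ⟨h8, h9⟩⟩
  refine hP (H.equivMapOfInjective (MulAut.conj a⁻¹).toMonoidHom (MulAut.conj a⁻¹).injective)
    (hsq h h1 h2 h3 h4 _ h6 ?_)
  rw [← Group.fg_iff_subgroup_fg] at hfg ⊢
  exact Group.fg_of_surjective (f := (H.equivMapOfInjective (MulAut.conj a⁻¹).toMonoidHom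
    (MulAut.conj a⁻¹).injective).toMonoidHom) (H.equivMapOfInjective _ _).surjective

/-- Test 4: the hypothesis on reversed segments for `k` implies the one for `k + 1` -/
theorem hypR_succ (hΓ : Γ.IsTree)
    (hadj : ∀ (g : G) (x y : V), Γ.Adj x y → Γ.Adj (g • x) (g • y)) {p q : V} {k : ℕ}
    (h : HypR P G Γ p q k) : HypR P G Γ p q (k + 1) := by
  intro u v W hW hlen hedge hrev H hH hfg
  obtain ⟨g, hu, hv⟩ := hrev
  have h1 := rev_seg hΓ hadj W hW hu hv 1
  have h2 := rev_seg hΓ hadj W hW hu hv (W.length - 1)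
  have hend : (W.drop 1).getVert (W.length - 1 - 1) = W.getVert (W.length - 1) := by
    rw [SimpleGraph.Walk.drop_getVert]
    congr 1
    omega
  refine h (W.getVert 1) ((W.drop 1).getVert (W.length - 1 - 1)) ((W.drop 1).take _)
    ((hW.drop 1).take _) ?_ ?_ ⟨g, ?_, ?_⟩ H ?_ hfg
  · rw [SimpleGraph.Walk.take_length, SimpleGraph.Walk.drop_length]
    omega
  · intro e he
    rw [SimpleGraph.Walk.edges_take, SimpleGraph.Walk.edges_drop] at he
    exact hedge e (List.mem_of_mem_drop (List.mem_of_mem_take he))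
  · rw [hend, h1]
  · rw [hend, h2]
    congr 1
    omega
  · intro x hx
    obtain ⟨h3, h4⟩ := hH hx
    refine ⟨fix_seg hΓ hadj W hW h3 h4 1, ?_⟩
    rw [hend]
    exact fix_seg hΓ hadj W hW h3 h4 _

end

end Pool.Agent.MIX.Test
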