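import Mathlib
import Pool.Agent.Lib.MIX.LineADefs
import Pool.Agent.Lib.H10T.MixTest

/-!
# Derivation tests for the theorem on reversible lines
-/

set_option autoImplicit false

open MonoidAlgebra Pool.Agent.Lib.MP_98022b_UM.UF Pool.Agent.UP25

namespace Pool.Agent.MIX.Test

universe u v w

section
variable {G : Type v} [Group G] {V : Type w} [MulAction G V] {Γ : SimpleGraph V}

/-- the central segment of length two of a reversible line -/
theorem line_two {p q : V} {u v : ℕ → V} (h : ReversibleLine G Γ p q u v) :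
    ∃ W : Γ.Walk (u 1) (v 1), W.IsPath ∧ W.length = 2 * 1 ∧
      (∀ e ∈ W.edges, ∃ g : G, e = s(g • p, g • q)) := by
  have h1 : Γ.Adj (u 1) (u 0) := (h.adjU 0).symm
  have h2 : Γ.Adj (u 0) (v 1) := by
    rw [h.start]
    exact h.adjV 0
  refine ⟨SimpleGraph.Walk.cons h1 (SimpleGraph.Walk.cons h2 SimpleGraph.Walk.nil), ?_, rfl, ?_⟩
  · refine SimpleGraph.Walk.isPath_of_length_eq_dist _ ?_
    rw [h.dist 1]
    rfl
  · intro e he
    simp only [SimpleGraph.Walk.edges_cons, SimpleGraph.Walk.edges_nil, List.mem_cons,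
      List.not_mem_nil, or_false] at he
    rcases he with rfl | rfl
    · obtain ⟨g, hg⟩ := h.edgeU 0
      exact ⟨g, by rw [Sym2.eq_swap]; exact hg⟩
    · obtain ⟨g, hg⟩ := h.edgeV 0
      exact ⟨g, by rw [h.start]; exact hg⟩

/-- no reversible line if the edge group is square root closed in the vertex groups -/
theorem no_line (hΓ : Γ.IsTree)
    (hadj : ∀ (g : G) (x y : V), Γ.Adj x y → Γ.Adj (g • x) (g • y)) {p q : V}
    (hsq : ∀ h : G, (h • p = p ∨ h • q = q) → (h * h) • p = p → (h * h) • q = q →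
      h • p = p ∧ h • q = q) {u v : ℕ → V} (h : ReversibleLine G Γ p q u v) : False := by
  obtain ⟨W, h1, h2, h3⟩ := line_two h
  obtain ⟨a, x, h4, h5, h6, h7, -⟩ := seg_two hΓ hadj W h1 h2 h3 (h.rev 1)
  exact h5 (hsq x h4 h6 h7)

/-- the walk along a reversible line -/
theorem line_walk {p q : V} {u : ℕ → V} (hadj : ∀ k, Γ.Adj (u k) (u (k + 1)))
    (hed : ∀ k, ∃ g : G, s(u k, u (k + 1)) = s(g • p, g • q)) (k : ℕ) :
    ∃ W : Γ.Walk (u 0) (u k), W.length = k ∧ (∀ e ∈ W.edges, ∃ g : G, e = s(g • p, g • q)) := by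
  induction k with
  | zero => exact ⟨SimpleGraph.Walk.nil, rfl, by simp⟩
  | succ k ih =>
    obtain ⟨W, h1, h2⟩ := ih
    refine ⟨W.concat (hadj k), ?_, ?_⟩
    · rw [SimpleGraph.Walk.length_concat, h1]
    · intro e he
      rw [SimpleGraph.Walk.edges_concat, List.concat_eq_append, List.mem_append,
        List.mem_singleton] at he
      rcases he with he | rfl
      · exact h2 e he
      · exact hed k

/-- the central segments of a reversible line -/
theorem line_seg {p q : V} {u v : ℕ → V} (h : ReversibleLine G Γ p q u v) (k : ℕ) :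
    ∃ W : Γ.Walk (u k) (v k), W.IsPath ∧ W.length = 2 * k ∧
      (∀ e ∈ W.edges, ∃ g : G, e = s(g • p, g • q)) := by
  obtain ⟨W, h1, h2⟩ := line_walk h.adjU h.edgeU k
  obtain ⟨W', h1', h2'⟩ := line_walk h.adjV h.edgeV k
  have hlen : (W.reverse.append (W'.copy h.start.symm rfl)).length = 2 * k := by
    rw [SimpleGraph.Walk.length_append, SimpleGraph.Walk.length_reverse,
      SimpleGraph.Walk.length_copy, h1, h1']
    omega
  refine ⟨W.reverse.append (W'.copy h.start.symm rfl), ?_, hlen, ?_⟩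
  · refine SimpleGraph.Walk.isPath_of_length_eq_dist _ ?_
    rw [h.dist k, hlen]
  · intro e he
    rw [SimpleGraph.Walk.edges_append, SimpleGraph.Walk.edges_reverse,
      SimpleGraph.Walk.edges_copy, List.mem_append, List.mem_reverse] at he
    rcases he with he | he
    · exact h2 e he
    · exact h2' e he

/-- the stabiliser of a central segment of a reversible line is not trivial if `G_p` and `G_q` have
no elements of order two -/
theorem stab_ne_bot (hΓ : Γ.IsTree)
    (hadj : ∀ (g : G) (x y : V), Γ.Adj x y → Γ.Adj (g • x) (g • y)) {p q : V}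
    (h2p : ∀ g : G, g • p = p → g * g = 1 → g = 1)
    (h2q : ∀ g : G, g • q = q → g * g = 1 → g = 1) {u v : ℕ → V}
    (h : ReversibleLine G Γ p q u v) {k : ℕ} (hk : 1 ≤ k) :
    MulAction.stabilizer G (u k) ⊓ MulAction.stabilizer G (v k) ≠ ⊥ := by
  intro hbot
  obtain ⟨W, h1, h2, h3⟩ := line_seg h k
  obtain ⟨g, hu, hv⟩ := h.rev k
  have hgg : g * g ∈ MulAction.stabilizer G (u k) ⊓ MulAction.stabilizer G (v k) := by
    constructor
    · change (g * g) • u k = u k
      rw [mul_smul, hu, hv]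
    · change (g * g) • v k = v k
      rw [mul_smul, hv, hu]
  rw [hbot, Subgroup.mem_bot] at hgg
  have hmid : g • W.getVert k = W.getVert k := by
    have := rev_seg hΓ hadj W h1 hu hv k
    rw [this, h2]
    congr 1
    omega
  have hne := ends_ne W h1 (by omega)
  obtain ⟨a, ha⟩ := h3 _ (mem_edges W (n := k) (by omega))
  have hg1 : g = 1 := by
    rw [Sym2.eq_iff] at ha
    have key : ∀ y : V, W.getVert k = a • y → (∀ g : G, g • y = y → g * g = 1 → g = 1) →
        g = 1 := by
      intro y hy h4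
      have h5 := h4 (a⁻¹ * g * a) (by
        rw [mul_smul, mul_smul, ← hy, hmid, hy, inv_smul_smul]) (by
        have : a⁻¹ * g * a * (a⁻¹ * g * a) = a⁻¹ * (g * g) * a := by group
        rw [this, hgg]
        group)
      have h6 : g = a * (a⁻¹ * g * a) * a⁻¹ := by group
      rw [h6, h5]
      group
    rcases ha with ⟨ha, -⟩ | ⟨ha, -⟩
    · exact key p ha h2p
    · exact key q ha h2q
  rw [hg1, one_smul] at hu
  exact hne hu

end

/-- Test D (Cappell's theorem for all commutative coefficient rings and no elements of order two) -/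
theorem cappellA (A : Type u) [CommRing A] [StarRing A] (hA : UNilVanishesA.{u, v, w} A)
    (G : Type v) [Group G] (V : Type w) [MulAction G V] (Γ : SimpleGraph V) (hΓ : Γ.IsTree)
    (hadj : ∀ (g : G) (x y : V), Γ.Adj x y → Γ.Adj (g • x) (g • y))
    (p q : V) (hpq : Γ.Adj p q) (hinv : ∀ g : G, ¬ (g • p = q ∧ g • q = p))
    (h2p : ∀ g : G, g • p = p → g * g = 1 → g = 1)
    (h2q : ∀ g : G, g • q = q → g * g = 1 → g = 1)
    (hsq : ∀ h : G, (h • p = p ∨ h • q = q) → (h * h) • p = p → (h * h) • q = q →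
      h • p = p ∧ h • q = q)
    (χ : G →* ℤˣ) (ε : ℤ) (hε : ε = 1 ∨ ε = -1) (n : Type) [Fintype n] [DecidableEq n]
    (x : QForm A χ ε p q n) : StablyHyperbolic χ ε (induced x) :=
  hA G V Γ hΓ hadj p q hpq hinv h2p h2q (fun _ _ h => (no_line hΓ hadj hsq h).elim) χ ε hε n x

/-- Test E (all coefficient rings, non-uniformly acylindrical actions): every line of translates of
`{p, q}` has a central segment with trivial stabiliser -/
theorem acylA (A : Type u) [CommRing A] [StarRing A] (hA : UNilVanishesA.{u, v, w} A)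
    (G : Type v) [Group G] (V : Type w) [MulAction G V] (Γ : SimpleGraph V) (hΓ : Γ.IsTree)
    (hadj : ∀ (g : G) (x y : V), Γ.Adj x y → Γ.Adj (g • x) (g • y))
    (p q : V) (hpq : Γ.Adj p q) (hinv : ∀ g : G, ¬ (g • p = q ∧ g • q = p))
    (h2p : ∀ g : G, g • p = p → g * g = 1 → g = 1)
    (h2q : ∀ g : G, g • q = q → g * g = 1 → g = 1)
    (hac : ∀ u v : ℕ → V, u 0 = v 0 → (∀ k, Γ.Adj (u k) (u (k + 1))) →
      (∀ k, Γ.Adj (v k) (v (k + 1))) → (∀ k, Γ.dist (u k) (v k) = 2 * k) →
      ∃ k, 1 ≤ k ∧ MulAction.stabilizer G (u k) ⊓ MulAction.stabilizer G (v k) = ⊥)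
    (χ : G →* ℤˣ) (ε : ℤ) (hε : ε = 1 ∨ ε = -1) (n : Type) [Fintype n] [DecidableEq n]
    (x : QForm A χ ε p q n) : StablyHyperbolic χ ε (induced x) :=
  hA G V Γ hΓ hadj p q hpq hinv h2p h2q (fun u v h => by
    obtain ⟨k, hk, hb⟩ := hac u v h.start h.adjU h.adjV h.dist
    exact (stab_ne_bot hΓ hadj h2p h2q h hk hb).elim) χ ε hε n x

/-- Test F: the hypothesis on reversed segments of the earlier theorem implies the hypothesis on
reversible lines -/
theorem reversedA (A : Type u) [CommRing A] [StarRing A] (hA : UNilVanishesA.{u, v, w} A)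
    (hg : GoodRing A) : UNilVanishesR.{u, v, w} A := by
  intro G _ V _ Γ hΓ hadj p q hpq hinv h2p h2q k hk hF χ ε hε n _ _ x
  refine hA G V Γ hΓ hadj p q hpq hinv h2p h2q (fun u v h => ⟨hg, k, hk, ?_⟩) χ ε hε n x
  obtain ⟨W, h1, h2, h3⟩ := line_seg h k
  exact hF (u k) (v k) W h1 h2 h3 (h.rev k)

end Pool.Agent.MIX.Test
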