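import Mathlib
import Pool.Agent.Lib.MIX.FinalDefs
import Pool.Agent.Lib.H10T.MixTest

/-!
# Derivation tests for the theorem on reversed segments
-/

set_option autoImplicit false

open MonoidAlgebra Pool.Agent.Lib.MP_98022b_UM.UF Pool.Agent.UP25

namespace Pool.Agent.MIX.Test

universe u v w

/-- Test A: the theorem on reversed segments gives the conclusion for the actions in the theorem of
stage 3 -/
theorem stage3 {A : Type u} [CommRing A] [StarRing A] (hA : UNilVanishesR.{u, v, w} A)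
    (G : Type v) [Group G] (V : Type w) [MulAction G V] (Γ : SimpleGraph V) (hΓ : Γ.IsTree)
    (hadj : ∀ (g : G) (x y : V), Γ.Adj x y → Γ.Adj (g • x) (g • y))
    (p q : V) (hpq : Γ.Adj p q) (hinv : ∀ g : G, ¬ (g • p = q ∧ g • q = p))
    (h2p : ∀ g : G, g • p = p → g * g = 1 → g = 1)
    (h2q : ∀ g : G, g • q = q → g * g = 1 → g = 1)
    (k : ℕ) (hk : 1 ≤ k)
    (hF : ∀ (u v : V) (W : Γ.Walk u v), W.IsPath → W.length = k →
      (∀ e ∈ W.edges, ∃ g : G, e = s(g • p, g • q)) → ∀ H : Subgroup G,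
      H ≤ MulAction.stabilizer G u ⊓ MulAction.stabilizer G v → H.FG → IsVT H)
    (χ : G →* ℤˣ) (ε : ℤ) (hε : ε = 1 ∨ ε = -1) (n : Type) [Fintype n] [DecidableEq n]
    (x : QForm A χ ε p q n) : StablyHyperbolic χ ε (induced x) :=
  hA G V Γ hΓ hadj p q hpq hinv h2p h2q k hk
    (hypR_of_hypT (P := fun H _ => IsVT H) hΓ hadj hF) χ ε hε n x

/-- Test B (Cappell's theorem without elements of order two): the edge group is square root closed
in the vertex groups -/
theorem cappell {A : Type u} [CommRing A] [StarRing A] (hA : UNilVanishesR.{u, v, w} A)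
    (G : Type v) [Group G] (V : Type w) [MulAction G V] (Γ : SimpleGraph V) (hΓ : Γ.IsTree)
    (hadj : ∀ (g : G) (x y : V), Γ.Adj x y → Γ.Adj (g • x) (g • y))
    (p q : V) (hpq : Γ.Adj p q) (hinv : ∀ g : G, ¬ (g • p = q ∧ g • q = p))
    (h2p : ∀ g : G, g • p = p → g * g = 1 → g = 1)
    (h2q : ∀ g : G, g • q = q → g * g = 1 → g = 1)
    (hsq : ∀ h : G, (h • p = p ∨ h • q = q) → (h * h) • p = p → (h * h) • q = q →
      h • p = p ∧ h • q = q)
    (χ : G →* ℤˣ) (ε : ℤ) (hε : ε = 1 ∨ ε = -1) (n : Type) [Fintype n] [DecidableEq n]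
    (x : QForm A χ ε p q n) : StablyHyperbolic χ ε (induced x) :=
  hA G V Γ hΓ hadj p q hpq hinv h2p h2q 1 le_rfl
    (hypR_of_sqrt (P := fun H _ => IsVT H) hΓ hadj hsq) χ ε hε n x

/-- Test C: the case `k = 1` in terms of the edge group `F`: only the intersections
`F ∩ h F h⁻¹`, `h` in a vertex group, `h` not in `F`, `h ^ 2` in `F`, are restricted -/
theorem case_one {A : Type u} [CommRing A] [StarRing A] (hA : UNilVanishesR.{u, v, w} A)
    (G : Type v) [Group G] (V : Type w) [MulAction G V] (Γ : SimpleGraph V) (hΓ : Γ.IsTree)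
    (hadj : ∀ (g : G) (x y : V), Γ.Adj x y → Γ.Adj (g • x) (g • y))
    (p q : V) (hpq : Γ.Adj p q) (hinv : ∀ g : G, ¬ (g • p = q ∧ g • q = p))
    (h2p : ∀ g : G, g • p = p → g * g = 1 → g = 1)
    (h2q : ∀ g : G, g • q = q → g * g = 1 → g = 1)
    (hsq : ∀ h : G, (h • p = p ∨ h • q = q) → ¬ (h • p = p ∧ h • q = q) → (h * h) • p = p →
      (h * h) • q = q → ∀ H : Subgroup G,
        H ≤ (MulAction.stabilizer G p ⊓ MulAction.stabilizer G q) ⊓
          (MulAction.stabilizer G (h • p) ⊓ MulAction.stabilizer G (h • q)) → H.FG → IsVT H)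
    (χ : G →* ℤˣ) (ε : ℤ) (hε : ε = 1 ∨ ε = -1) (n : Type) [Fintype n] [DecidableEq n]
    (x : QForm A χ ε p q n) : StablyHyperbolic χ ε (induced x) :=
  hA G V Γ hΓ hadj p q hpq hinv h2p h2q 1 le_rfl
    (hypR_one (P := fun H _ => IsVT H) (fun e h => by
      obtain ⟨d, hd⟩ := isVT_iff.1 h
      exact isVT_iff.2 ⟨d, hd.of_injective e.toMonoidHom e.injective⟩) hΓ hadj hsq) χ ε hε n x

end Pool.Agent.MIX.Test
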